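import Pool.Agent.Lib.MP_2b9f9a_al.DL.Nil31

/-!
# DL78, last step: from `r`-groups to all nilpotent groups (helper25).
-/

set_option autoImplicit false

namespace Pool.Agent.DA25

open Pool.Agent.PX (Fro)
open Pool.Agent.DL17.Nil31 (subAct)
open scoped commutatorElement

/-- The theorem for `r`-groups. -/
def StPrD : Prop := ∀ h d : ℕ, ∃ N : ℕ, ∀ (r : ℕ) [Fact r.Prime] (Γ P : Type) [Group Γ]
  [Finite Γ] [Group P] [Finite P] [MulDistribMulAction Γ P] (F H : Subgroup Γ),
  IsPGroup r P → Fro P F H → Nat.card H = h →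
  (∀ C : Subgroup P, (∀ g, g ∈ C ↔ ∀ x ∈ H, x • g = g) → derivedSeries C d = ⊥) →
  derivedSeries P N = ⊥

/-- The theorem for nilpotent groups. -/
def StNilD : Prop := ∀ h d : ℕ, ∃ N : ℕ, ∀ (G : Type) [Group G] [Finite G]
  (F H : Subgroup (MulAut G)), Group.IsNilpotent G →
  (∀ x ∈ H, ∀ y ∈ F, x * y * x⁻¹ ∈ F) →
  F ≠ ⊥ → H ≠ ⊥ →
  (∀ x ∈ H, x ≠ 1 → ∀ y ∈ F, x * y = y * x → y = 1) →
  (∀ y ∈ F, y ≠ 1 → ∀ g : G, y g = g → g = 1) →
  Nat.card H = h →
  (∀ C : Subgroup G, (∀ g : G, g ∈ C ↔ ∀ x ∈ H, x g = g) → derivedSeries C d = ⊥) →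
  derivedSeries G N = ⊥

/-- Derived series of a subgroup, as subgroups of the whole group. -/
def ds {G : Type} [Group G] (A : Subgroup G) : ℕ → Subgroup G
  | 0 => A
  | k + 1 => ⁅ds A k, ds A k⁆

theorem ds_mono {G : Type} [Group G] {A B : Subgroup G} (h : A ≤ B) (k : ℕ) :
    ds A k ≤ ds B k := by
  induction k with
  | zero => exact h
  | succ k ih => exact Subgroup.commutator_mono ih ih

theorem ds_map {G K : Type} [Group G] [Group K] (f : G →* K) (A : Subgroup G) (k : ℕ) :
    (ds A k).map f = ds (A.map f) k := by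
  induction k with
  | zero => rfl
  | succ k ih =>
    change (⁅ds A k, ds A k⁆).map f = ⁅ds (A.map f) k, ds (A.map f) k⁆
    rw [Subgroup.map_commutator, ih]

theorem ds_top {G : Type} [Group G] (k : ℕ) : ds (⊤ : Subgroup G) k = derivedSeries G k := by
  induction k with
  | zero => rfl
  | succ k ih =>
    change ⁅ds (⊤ : Subgroup G) k, ds (⊤ : Subgroup G) k⁆ = ⁅derivedSeries G k, derivedSeries G k⁆
    rw [ih]

theorem ds_sub {G : Type} [Group G] (A : Subgroup G) (k : ℕ) :
    (derivedSeries A k).map A.subtype = ds A k := by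
  rw [← ds_top, ds_map, ← MonoidHom.range_eq_map, Subgroup.range_subtype]

theorem ds_sub_bot {G : Type} [Group G] (A : Subgroup G) (k : ℕ) :
    derivedSeries A k = ⊥ ↔ ds A k = ⊥ := by
  rw [← ds_sub, Subgroup.map_eq_bot_iff_of_injective _ A.subtype_injective]

/-- Derived series of suprema of commuting normal subgroups. -/
theorem ds_iSup {G ι : Type} [Group G] (A : ι → Subgroup G) (hn : ∀ i, (A i).Normal)
    (hc : ∀ i j, i ≠ j → ∀ a ∈ A i, ∀ b ∈ A j, a * b = b * a) (k : ℕ) :
    ds (⨆ i, A i) k ≤ ⨆ i, ds (A i) k ∧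
      (∀ i, (ds (A i) k).Normal) ∧ (∀ i, ds (A i) k ≤ A i) := by
  induction k with
  | zero => exact ⟨le_rfl, hn, fun i => le_rfl⟩
  | succ k ih =>
    obtain ⟨ih1, ih2, ih3⟩ := ih
    have hn' : ∀ i, (ds (A i) (k + 1)).Normal := by
      intro i
      have h1 := ih2 i
      change (⁅ds (A i) k, ds (A i) k⁆).Normal
      infer_instance
    refine ⟨?_, hn', ?_⟩
    · change ⁅ds (⨆ i, A i) k, ds (⨆ i, A i) k⁆ ≤ _
      refine (Subgroup.commutator_mono ih1 ih1).trans ?_
      rw [Subgroup.commutator_le]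
      set N : Subgroup G := ⨆ i, ds (A i) (k + 1) with hNdef
      have hN : N.Normal := by
        have := hn'
        exact Subgroup.iSup_normal _
      let π := QuotientGroup.mk' N
      have hcomm : ∀ a b : G, ⁅a, b⁆ ∈ N ↔ π a * π b = π b * π a := by
        intro a b
        rw [← QuotientGroup.eq_one_iff, ← commutatorElement_eq_one_iff_mul_comm]
        rfl
      have key : ∀ i j, ∀ a ∈ ds (A i) k, ∀ b ∈ ds (A j) k, π a * π b = π b * π a := by
        intro i j a ha b hb
        by_cases hij : i = j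
        · subst hij
          rw [← hcomm]
          exact Subgroup.mem_iSup_of_mem i (Subgroup.commutator_mem_commutator ha hb)
        · rw [← map_mul, ← map_mul, hc i j hij a (ih3 i ha) b (ih3 j hb)]
      intro a ha b hb
      rw [hcomm]
      refine Subgroup.iSup_induction (fun i => ds (A i) k)
        (C := fun a => π a * π b = π b * π a) ha ?_ ?_ ?_
      · intro i a ha
        refine Subgroup.iSup_induction (fun i => ds (A i) k)
          (C := fun b => π a * π b = π b * π a) hb ?_ ?_ ?_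
        · intro j b hb
          exact key i j a ha b hb
        · rw [map_one, mul_one, one_mul]
        · intro x y hx hy
          rw [map_mul, ← mul_assoc, hx, mul_assoc, hy, mul_assoc]
      · rw [map_one, mul_one, one_mul]
      · intro x y hx hy
        rw [map_mul, mul_assoc, hy, ← mul_assoc, hx, mul_assoc]
    · intro i
      have h1 := ih2 i
      exact (Subgroup.commutator_le_left _ _).trans (ih3 i)

theorem stNilD_25 (hPr : StPrD) : StNilD := by
  intro h d
  obtain ⟨N, hN⟩ := hPr h d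
  refine ⟨N, ?_⟩
  intro G _ _ F H hnil hnorm hF hH hfree hfpf hcard hC
  have hnorS : ∀ (p : ℕ) [Fact p.Prime] (P : Sylow p G), (P : Subgroup G).Normal := by
    intro p hp P
    exact (Group.isNilpotent_of_finite_tfae.out 0 3 rfl rfl).1 hnil p hp P
  let ι := {p : ℕ // p ∈ (Nat.card G).primeFactors}
  have hι : ∀ i : ι, Fact (i.1).Prime := fun i => ⟨Nat.prime_of_mem_primeFactors i.2⟩
  let S : ∀ i : ι, Sylow i.1 G := fun i => default
  have hSn : ∀ i : ι, ((S i : Sylow i.1 G) : Subgroup G).Normal := fun i => by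
    have := hι i
    exact hnorS i.1 (S i)
  have hsup : (⨆ i : ι, ((S i : Sylow i.1 G) : Subgroup G)) = ⊤ := by
    refine Subgroup.eq_top_of_card_eq _ ?_
    refine Nat.dvd_antisymm (Subgroup.card_subgroup_dvd_card _) ?_
    rw [Nat.dvd_iff_prime_pow_dvd_dvd]
    intro p k hp hk
    by_cases hk0 : k = 0
    · rw [hk0, pow_zero]; exact one_dvd _
    have hpG : p ∣ Nat.card G := (dvd_pow_self p hk0).trans hk
    have hpm : p ∈ (Nat.card G).primeFactors :=
      Nat.mem_primeFactors.2 ⟨hp, hpG, Nat.card_pos.ne'⟩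
    have := hι ⟨p, hpm⟩
    have h1 : p ^ k ∣ Nat.card (S ⟨p, hpm⟩ : Subgroup G) := by
      have h2 := (S ⟨p, hpm⟩).card_eq_multiplicity
      change Nat.card (S ⟨p, hpm⟩ : Subgroup G) = p ^ _ at h2
      rw [h2]
      exact (hp.pow_dvd_iff_dvd_ordProj Nat.card_pos.ne').1 hk
    exact h1.trans (Subgroup.card_dvd_of_le
      (le_iSup (fun i : ι => ((S i : Sylow i.1 G) : Subgroup G)) ⟨p, hpm⟩))
  have hcomm : ∀ i j : ι, i ≠ j → ∀ a ∈ (S i : Subgroup G), ∀ b ∈ (S j : Subgroup G),
      a * b = b * a := by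
    intro i j hij a ha b hb
    have := hι i
    have := hι j
    refine Subgroup.commute_of_normal_of_disjoint _ _ (hSn i) (hSn j) ?_ a b ha hb
    exact IsPGroup.disjoint_of_ne i.1 j.1 (fun e => hij (Subtype.ext e)) _ _ (S i).isPGroup'
      (S j).isPGroup'
  obtain ⟨h1, -, -⟩ :=
    ds_iSup (fun i : ι => ((S i : Sylow i.1 G) : Subgroup G)) hSn hcomm N
  rw [hsup, ds_top] at h1
  have hone : ∀ i : ι, ds ((S i : Sylow i.1 G) : Subgroup G) N = ⊥ := by
    intro i
    have hp := hι i
    set p := i.1 with hpdef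
    set P : Subgroup G := (S i : Subgroup G) with hPdef
    have hPp : IsPGroup p P := (S i).isPGroup'
    have hchar : P.Characteristic := (S i).characteristic_of_normal (hSn i)
    have hst : ∀ γ : MulAut G, ∀ g ∈ P, γ • g ∈ P := by
      intro γ g hg
      have h2 := (Subgroup.characteristic_iff_map_le.1 hchar) γ
      exact h2 ⟨g, hg, rfl⟩
    let _ : MulDistribMulAction (MulAut G) P := subAct P hst
    have hsm : ∀ (γ : MulAut G) (g : P), ((γ • g : P) : G) = γ (g : G) := fun γ g => rfl
    have hFro : Fro P F H :=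
      { norm := hnorm
        fne := hF
        hne := hH
        free := hfree
        fpf := by
          intro y hy hy1 g hg
          have := hfpf y hy hy1 (g : G) (by rw [← hsm, hg])
          exact Subtype.ext this }
    have hCQ : ∀ C : Subgroup P, (∀ g, g ∈ C ↔ ∀ x ∈ H, x • g = g) →
        derivedSeries C d = ⊥ := by
      intro C hCC
      let CG : Subgroup G :=
        { carrier := {g | ∀ x ∈ H, x g = g}
          one_mem' := fun x _ => map_one x
          mul_mem' := fun {a b} ha hb x hx => by rw [map_mul, ha x hx, hb x hx]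
          inv_mem' := fun {a} ha x hx => by rw [map_inv, ha x hx] }
      have hle : C.map P.subtype ≤ CG := by
        rintro _ ⟨g, hg, rfl⟩ x hx
        have := (hCC g).1 hg x hx
        exact congrArg Subtype.val this
      have h2 : ds CG d = ⊥ := (ds_sub_bot CG d).1 (hC CG (fun g => Iff.rfl))
      have h3 : ds (C.map P.subtype) d = ⊥ := le_bot_iff.1 ((ds_mono hle d).trans h2.le)
      rw [← ds_map, Subgroup.map_eq_bot_iff_of_injective _ P.subtype_injective] at h3
      exact (ds_sub_bot C d).2 h3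
    exact (ds_sub_bot P N).1 (hN p (MulAut G) P F H hPp hFro hcard hCQ)
  refine le_bot_iff.1 (h1.trans ?_)
  exact iSup_le fun i => (hone i).le

end Pool.Agent.DA25
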