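import Pool.Agent.Lib.MP_2b9f9a_al.DA.Asm25
import Pool.Agent.Lib.MP_2b9f9a_al.TH.All_50

/-!
# DL78 + Thompson: the statement of the problem from the theorem for `r`-groups (helper25).
-/

set_option autoImplicit false

namespace Pool.Agent.DA25

theorem main_25 (hPr : StPrD) :
    ∀ (h d : ℕ), ∃ N : ℕ, ∀ (G : Type) [Group G] [Finite G] (F H : Subgroup (MulAut G)),
      (∀ x ∈ H, ∀ y ∈ F, x * y * x⁻¹ ∈ F) →
      F ⊓ H = ⊥ → F ≠ ⊥ → H ≠ ⊥ →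
      (∀ x ∈ H, x ≠ 1 → ∀ y ∈ F, x * y = y * x → y = 1) →
      (∀ y ∈ F, y ≠ 1 → ∀ g : G, y g = g → g = 1) →
      Nat.card H = h →
      (∀ C : Subgroup G, (∀ g : G, g ∈ C ↔ ∀ x ∈ H, x g = g) → derivedSeries C d = ⊥) →
      derivedSeries G N = ⊥ := by
  intro h d
  obtain ⟨N, hN⟩ := stNilD_25 hPr h d
  refine ⟨N, ?_⟩
  intro G _ _ F H hn _ hF hH hfree hfpf hcard hC
  exact hN G F H (Pool.Agent.Lib.MP_2b9f9a_al.TH.nilpotent_all50 G F hF hfpf) hn hF hH hfree hfpf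
    hcard hC

end Pool.Agent.DA25
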